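import Pool.Agent.helper88.PF.Spec

set_option autoImplicit false

/-! Row pf:BBA (helper98): the base of the criterion. -/

namespace PF

noncomputable section

/-- An increasing sequence in a finite ordered set is eventually constant. -/
theorem BBA_const {σ : Type} [PartialOrder σ] [Finite σ] (f : ℕ → σ) (h : ∀ s, f s ≤ f (s + 1)) :
    ∃ s₀, ∀ s, s₀ ≤ s → f s = f s₀ := by
  obtain ⟨n, hn⟩ := WellFoundedGT.monotone_chain_condition (⟨f, monotone_nat_of_le_succ h⟩ : ℕ →o σ)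
  exact ⟨n, fun s hs => (hn s hs).symm⟩

theorem BBA (_hACL : ACL_stmt) (hACP : ACP_stmt) (hARC : ARC_stmt) (hALI : ALI_stmt)
    (hAUN : AUN_stmt) (hATH : ATH_stmt) (hBGA : BGA_stmt) : BBA_stmt := by
  classical
  intro α β K Θ hyp
  by_contra hno
  obtain ⟨I, hI0, hImono, hIstep⟩ := hBGA α β (fun u v => K u → Θ u v) hno
  obtain ⟨U, hU, hUm, hUu⟩ := hAUN β
  obtain ⟨-, hcp2, hcp3, -, -⟩ := hACP
  -- the next move
  obtain ⟨nxt, hn1, hn2, hn3⟩ : ∃ nxt : α → β → α, (∀ u v, u ≤ nxt u v) ∧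
      (∀ u v, I u v → I (nxt u v) v) ∧ ∀ u v, I u v → (K u → Θ u v) → u < nxt u v := by
    refine ⟨fun u v => if h : I u v ∧ (K u → Θ u v) then (hIstep u v h.1 h.2).choose else u,
      ?_, ?_, ?_⟩
    · intro u v
      by_cases h : I u v ∧ (K u → Θ u v)
      · simp only [dif_pos h]
        exact (hIstep u v h.1 h.2).choose_spec.1.le
      · simp only [dif_neg h]
        exact le_rfl
    · intro u v hI
      by_cases h : I u v ∧ (K u → Θ u v)
      · simp only [dif_pos h]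
        exact (hIstep u v h.1 h.2).choose_spec.2
      · simp only [dif_neg h]
        exact hI
    · intro u v hI hth
      have h : I u v ∧ (K u → Θ u v) := ⟨hI, hth⟩
      simp only [dif_pos h]
      exact (hIstep u v h.1 h.2).choose_spec.1
  -- the opponent
  have hY : Cmp (fun z : ℕ × ℕ => U ((z.1.unpair.1, z.1), z.2)) := by
    refine hcp3 (ℕ × ℕ) ((ℕ × ℕ) × ℕ) β U (fun z => ((z.1.unpair.1, z.1), z.2)) ?_ hU
    exact ((Computable.fst.comp (Computable.unpair.comp Computable.fst)).pair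
      Computable.fst).pair Computable.snd
  obtain ⟨S, hS, hS0, hSs⟩ := hARC ℕ α β ⊥ nxt _ hY
  have hSm : ∀ p s, S (p, s) ≤ S (p, s + 1) := by
    intro p s
    rw [hSs]
    exact hn1 _ _
  have hInv : ∀ p s, I (S (p, s)) (U ((p.unpair.1, p), s)) := by
    intro p s
    induction s with
    | zero =>
      rw [hS0]
      exact hImono _ _ _ bot_le hI0
    | succ s ih =>
      rw [hSs]
      exact hImono _ _ _ (hUm _ _ _) (hn2 _ _ ih)
  -- the limit
  have hlim := fun p => BBA_const (fun s => S (p, s)) (hSm p)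
  choose s₀ hs₀ using hlim
  set x : ℕ → α := fun p => S (p, s₀ p) with hx
  have hxl : ∀ p, ∃ s₁, ∀ s, s₁ ≤ s → S (p, s) = x p := fun p => ⟨s₀ p, hs₀ p⟩
  have hxCE : CE x := hALI α x S hS hSm hxl
  -- the opponent loses
  have hlose : ∀ p (v : β), (∃ s₁, ∀ s, s₁ ≤ s → U ((p.unpair.1, p), s) = v) →
      ¬ (K (x p) → Θ (x p) v) := by
    rintro p v ⟨s₁, hs₁⟩ hth
    have e1 := hs₀ p (max (s₀ p) s₁) (le_max_left _ _)
    have e2 := hs₁ (max (s₀ p) s₁) (le_max_right _ _)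
    have e3 := hs₀ p (max (s₀ p) s₁ + 1) ((le_max_left _ _).trans (Nat.le_succ _))
    have e4 := hInv p (max (s₀ p) s₁)
    rw [hSs] at e3
    rw [e1, e2] at e3 e4
    have e5 := hn3 _ _ e4 hth
    rw [e3] at e5
    exact lt_irrefl _ e5
  have hK : ∀ p, K (x p) := by
    intro p
    obtain ⟨s₁, hs₁⟩ := BBA_const (fun s => U ((p.unpair.1, p), s)) (fun s => hUm _ _ _)
    by_contra hnK
    exact hlose p _ ⟨s₁, hs₁⟩ (fun h => absurd h hnK)
  obtain ⟨y, hyCE, hyW⟩ := hyp x hxCE (by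
    unfold AE
    have : {p | ¬ K (x p)} = ∅ := by
      rw [Set.eq_empty_iff_forall_notMem]
      intro p hp
      exact hp (hK p)
    rw [this]
    exact Set.finite_empty)
  obtain ⟨c, hc⟩ := hUu y hyCE
  -- thin sets
  have hZ : Cmp (fun z : ℕ × ℕ => (S (Nat.pair c z.1, z.2), U ((c, Nat.pair c z.1), z.2))) := by
    refine hcp2 (ℕ × ℕ) α β (fun z => S (Nat.pair c z.1, z.2))
      (fun z => U ((c, Nat.pair c z.1), z.2)) ?_ ?_
    · refine hcp3 (ℕ × ℕ) (ℕ × ℕ) α S (fun z => (Nat.pair c z.1, z.2)) ?_ hS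
      exact ((Primrec₂.natPair.comp (Primrec.const c) Primrec.fst).pair Primrec.snd).to_comp
    · refine hcp3 (ℕ × ℕ) ((ℕ × ℕ) × ℕ) β U (fun z => ((c, Nat.pair c z.1), z.2)) ?_ hU
      exact (((Primrec.const c).pair (Primrec₂.natPair.comp (Primrec.const c) Primrec.fst)).pair
        Primrec.snd).to_comp
  obtain ⟨σ₀, R, hR, hRi, hRσ⟩ := hATH (α × β) _ hZ (fun k s =>
    Prod.mk_le_mk.2 ⟨hSm _ _, hUm _ _ _⟩)
  have hval : ∀ k, R k → (x (Nat.pair c k), y (Nat.pair c k)) = σ₀ := by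
    intro k hk
    obtain ⟨s₁, hs₁⟩ := hRσ k hk
    obtain ⟨s₂, hs₂⟩ := hc (Nat.pair c k)
    have e1 := hs₁ (max s₁ (max s₂ (s₀ (Nat.pair c k)))) (le_max_left _ _)
    have e2 := hs₂ (max s₁ (max s₂ (s₀ (Nat.pair c k))))
      ((le_max_left _ _).trans (le_max_right _ _))
    have e3 := hs₀ (Nat.pair c k) (max s₁ (max s₂ (s₀ (Nat.pair c k))))
      ((le_max_right _ _).trans (le_max_right _ _))
    simp only at e1 e3
    rw [e2, e3] at e1
    exact e1
  obtain ⟨k, hk⟩ := hRi.nonempty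
  have hfin : Θ σ₀.1 σ₀.2 := by
    refine hyW (fun p => p.unpair.1 = c ∧ R p.unpair.2) ?_ ?_ σ₀ ?_
    · refine cp_and (cp_eq (Computable.fst.comp Computable.unpair) (Computable.const c)) ?_
      exact cp_comp (Computable.snd.comp Computable.unpair) hR
    · refine Set.Infinite.mono ?_ (hRi.image (f := fun k => Nat.pair c k) ?_)
      · rintro _ ⟨k, hk, rfl⟩
        show (Nat.pair c k).unpair.1 = c ∧ R (Nat.pair c k).unpair.2
        rw [Nat.unpair_pair]
        exact ⟨rfl, hk⟩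
      · intro k _ k' _ h
        exact (Nat.pair_eq_pair.1 h).2
    · rintro p ⟨hp1, hp2⟩
      have := hval _ hp2
      rwa [← hp1, Nat.pair_unpair] at this
  have e1 := hval k hk
  have e2 := hlose (Nat.pair c k) (y (Nat.pair c k)) (by
    rw [Nat.unpair_pair]
    exact hc _)
  apply e2
  intro _
  have e3 : x (Nat.pair c k) = σ₀.1 := congrArg Prod.fst e1
  have e4 : y (Nat.pair c k) = σ₀.2 := congrArg Prod.snd e1
  rw [e3, e4]
  exact hfin

end

end PF
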