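import Pool.Agent.helper88.PF.Spec

set_option autoImplicit false

/-! Row pf:CTP (helper98): a leading existential block may be replaced by constants. -/

namespace PF

noncomputable section

theorem CTP_ev {L : Type} [Lattice L] [BoundedOrder L] (t : Tm) (e e' : ℕ → L)
    (h : ∀ i, t.Occ i → e i = e' i) : t.ev e = t.ev e' := by
  induction t with
  | var i => exact h i rfl
  | bot => rfl
  | top => rfl
  | sup a b iha ihb =>
    show a.ev e ⊔ b.ev e = a.ev e' ⊔ b.ev e'
    rw [iha fun i hi => h i (Or.inl hi), ihb fun i hi => h i (Or.inr hi)]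
  | inf a b iha ihb =>
    show a.ev e ⊓ b.ev e = a.ev e' ⊓ b.ev e'
    rw [iha fun i hi => h i (Or.inl hi), ihb fun i hi => h i (Or.inr hi)]

theorem CTP_eqAt (s s' : ℕ → Prop) (a : Tm × Tm)
    (h : ∀ i, a.1.Occ i ∨ a.2.Occ i → s i = s' i) : eqAt s a ↔ eqAt s' a := by
  unfold eqAt
  rw [CTP_ev a.1 s s' fun i hi => h i (Or.inl hi), CTP_ev a.2 s s' fun i hi => h i (Or.inr hi)]

theorem CTP_Qm (hACL : ACL_stmt) (f g : ℕ → ℕ) (hf : Computable f) (hg : Computable g)
    (hgf : ∀ n, g (f n) = n) (M M' : (ℕ → List Prop) → Prop)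
    (hM : ∀ c, M c → M' (fun n => c (f n))) (q : List Bool) :
    ∀ c, Qm q M c → Qm q M' (fun n => c (f n)) := by
  obtain ⟨-, -, -, hcomp, -, -, -⟩ := hACL
  induction q with
  | nil => exact hM
  | cons b q ih =>
    intro c hc
    cases b with
    | true =>
      intro x' hx'
      have h1 : CE (fun p => x' (g p)) := hcomp Prop x' g hg hx'
      have h2 := ih _ (hc (fun p => x' (g p)) h1)
      simp only [hgf] at h2
      exact h2
    | false =>
      obtain ⟨x, hx, h1⟩ := hc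
      exact ⟨fun n => x (f n), hcomp Prop x f hf hx, ih _ h1⟩

theorem CTP (hACL : ACL_stmt) (_hACP : ACP_stmt) (hAAP : AAP_stmt) (hATH : ATH_stmt)
    (hAFH : AFH_stmt) : CTP_stmt := by
  intro k m q r cl w hS hw hsm
  obtain ⟨A, hA, hA1, -, hA3⟩ := hAAP (Po.bits k) w hw
  obtain ⟨τ, R, hR, hRi, hRτ⟩ := hATH (Po.bits k) A hA hA1
  have hwτ : ∀ p, R p → w p = τ := by
    intro p hp
    obtain ⟨s₁, hs₁⟩ := hRτ p hp
    obtain ⟨s₂, hs₂⟩ := hA3 p
    rw [← hs₁ (max s₁ s₂) (le_max_left _ _), hs₂ (max s₁ s₂) (le_max_right _ _)]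
  obtain ⟨f, g, hf, hg, hfR, hgf, hfib⟩ := hAFH R hR hRi
  have hfinj : Function.Injective f := fun a b hab => by
    rw [← hgf a, ← hgf b, hab]
  refine ⟨τ, ?_⟩
  intro x' hx'
  have hx : CE (fun p => x' (g p)) := hACL.2.2.2.1 (Po.bits m) x' g hg hx'
  have h1 := hsm (fun p => x' (g p)) hx
  refine CTP_Qm hACL f g hf hg hgf _ _ ?_ q.reverse (fun _ => []) h1
  intro c hc z' hz'
  have hz : CE (fun p => z' (g p)) := hACL.2.2.2.1 (Po.bits r) z' g hg hz'
  have h2 := hc (fun p => z' (g p)) hz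
  intro d hd hyp
  obtain ⟨a, ha, h3⟩ := h2 d hd (by
    intro e he
    have h4 := hyp e he
    unfold AE at h4 ⊢
    have h5 : {p | ¬ eqAt (stt r q.length m (bx (z' (g p))) (c p) (bx (x' (g p))) (bx (w p))) e} ⊆
        ⋃ n ∈ {n | ¬ eqAt (stt r q.length m (bx (z' n)) (c (f n)) (bx (x' n)) (bx τ)) e},
          {p | g p = n} := by
      intro p hp
      rw [Set.mem_iUnion₂]
      refine ⟨g p, ?_, rfl⟩
      intro h6
      apply hp
      refine (CTP_eqAt _ _ e ?_).1 h6
      intro i hi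
      have h7 := hS d hd e he i hi
      unfold stt
      rcases h7 with h7 | ⟨h7, h8⟩
      · rw [if_pos h7, if_pos h7]
      · rw [if_neg (by omega), if_neg (by omega), if_pos h8, if_neg (by omega), if_neg (by omega),
          if_pos h8]
    exact (h4.biUnion fun n _ => hfib n).subset h5)
  refine ⟨a, ha, ?_⟩
  unfold AE at h3 ⊢
  have h6 := h3.preimage (f := f) hfinj.injOn
  refine h6.subset ?_
  intro n hn
  show ¬ eqAt (stt r q.length m (bx (z' (g (f n)))) (c (f n)) (bx (x' (g (f n)))) (bx (w (f n)))) a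
  rw [hgf, hwτ _ (hfR n)]
  exact hn

end

end PF
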